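import Pool.Agent.helper23.CS.Spec2

/-!
# Project cs (MP_7c3fb3_pr): row WTS
-/

set_option autoImplicit false

open Finset

namespace CS

open CU

lemma WTS_bond (a b a' b' : Bool) :
    sg a * sg b + sg a' * sg b' ≤ sg (a ⊓ a') * sg (b ⊓ b') + sg (a ⊔ a') * sg (b ⊔ b') := by
  cases a <;> cases b <;> cases a' <;> cases b' <;> norm_num [sg]

theorem WTS : WTS_stmt := by
  intro d n β hβ
  refine ⟨fun σ => Real.exp_pos _, fun σ τ => ?_⟩
  unfold wt
  rw [← Real.exp_add, ← Real.exp_add]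
  apply Real.exp_le_exp.mpr
  have h1 : ∑ x : Site d (n + 3), ∑ i : Fin d, sg (σ x) * sg (σ (x + ev i)) +
      ∑ x : Site d (n + 3), ∑ i : Fin d, sg (τ x) * sg (τ (x + ev i)) ≤
      ∑ x : Site d (n + 3), ∑ i : Fin d, sg ((σ ⊓ τ) x) * sg ((σ ⊓ τ) (x + ev i)) +
      ∑ x : Site d (n + 3), ∑ i : Fin d, sg ((σ ⊔ τ) x) * sg ((σ ⊔ τ) (x + ev i)) := by
    rw [← Finset.sum_add_distrib, ← Finset.sum_add_distrib]
    refine Finset.sum_le_sum fun x _ => ?_
    rw [← Finset.sum_add_distrib, ← Finset.sum_add_distrib]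
    refine Finset.sum_le_sum fun i _ => ?_
    exact WTS_bond (σ x) (σ (x + ev i)) (τ x) (τ (x + ev i))
  have h2 := mul_le_mul_of_nonneg_left h1 hβ
  linarith [h2]

end CS
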